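import Mathlib
import Pool.Agent.H204R3.GP.MTDefs

/-!
# From Tate classes over all finite extensions to Tate classes over the ground field
-/

set_option autoImplicit false

namespace Pool.Agent.Y130.AST

open Module Pool.Agent.H204R3.GP

variable {K : Type} [Field K] [CharZero K] {V : Type} [AddCommGroup V] [Module K V]
  {W A : Type} [AddCommGroup W] [Module ℚ W] [AddCommGroup A] [Module ℂ A] {κ : Type}

theorem hodge_sum (per : W →+ A) {J : Type} (s : Finset J) (r : J → ℚ)
    (f : J → MultilinearMap ℚ (fun _ : κ => W) ℚ) (hf : ∀ j, IsHodgeTensor per (f j)) :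
    IsHodgeTensor per (∑ j ∈ s, r j • f j) := by
  choose ψ h1 h2 using hf
  refine ⟨∑ j ∈ s, (r j : ℝ) • ψ j, fun v => ?_, fun z hz u => ?_⟩
  · rw [_root_.sum_apply, _root_.sum_apply, Rat.cast_sum]
    refine Finset.sum_congr rfl fun j _ => ?_
    rw [_root_.smul_apply, _root_.smul_apply, h1, smul_eq_mul, smul_eq_mul, Rat.cast_mul]
  · rw [_root_.sum_apply, _root_.sum_apply]
    refine Finset.sum_congr rfl fun j _ => ?_
    rw [_root_.smul_apply, _root_.smul_apply, h2 j z hz]

/-- A combination with coefficients in `K` of extensions of rational forms with the property `P`,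
which is stable under rational combinations, is a combination with coefficients which are linearly
independent over `ℚ`. -/
theorem indep (comp : W →+ V) (P : MultilinearMap ℚ (fun _ : κ => W) ℚ → Prop)
    (hP : ∀ (N : ℕ) (r : Fin N → ℚ) (f : Fin N → MultilinearMap ℚ (fun _ : κ => W) ℚ),
      (∀ j, P (f j)) → P (∑ j, r j • f j))
    (φ : MultilinearMap K (fun _ : κ => V) K)
    (hφ : φ ∈ Submodule.span K {φ' | ∃ ψ, P ψ ∧ Compares comp φ' ψ}) :
    ∃ (M : ℕ) (d : Fin M → K) (φ' : Fin M → MultilinearMap K (fun _ : κ => V) K)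
      (ψ' : Fin M → MultilinearMap ℚ (fun _ : κ => W) ℚ), LinearIndependent ℚ d ∧
      (∀ i, P (ψ' i)) ∧ (∀ i, Compares comp (φ' i) (ψ' i)) ∧ φ = ∑ i, d i • φ' i := by
  classical
  obtain ⟨N, c, g, rfl⟩ := Submodule.mem_span_set'.1 hφ
  choose ψ hψ hcmp using fun i => (g i).2
  let C : Submodule ℚ K := Submodule.span ℚ (Set.range c)
  have : FiniteDimensional ℚ C := FiniteDimensional.span_of_finite ℚ (Set.finite_range c)
  let b := Module.finBasis ℚ C
  let c' : Fin N → C := fun j => ⟨c j, Submodule.subset_span ⟨j, rfl⟩⟩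
  refine ⟨_, fun i => (b i : K), fun i => ∑ j, ((b.repr (c' j) i : ℚ) : K) • (g j).1,
    fun i => ∑ j, b.repr (c' j) i • ψ j, ?_, fun i => hP _ _ _ hψ, fun i v => ?_, ?_⟩
  · exact b.linearIndependent.map' C.subtype (Submodule.ker_subtype C)
  · rw [_root_.sum_apply, _root_.sum_apply, Rat.cast_sum]
    refine Finset.sum_congr rfl fun j _ => ?_
    rw [_root_.smul_apply, _root_.smul_apply, hcmp j v, smul_eq_mul, smul_eq_mul, Rat.cast_mul]
  · have h1 : ∀ j, c j = ∑ i, ((b.repr (c' j) i : ℚ) : K) * (b i : K) := by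
      intro j
      have h2 := congrArg (Subtype.val : C → K) (b.sum_repr (c' j))
      rw [Submodule.coe_sum] at h2
      change _ = c j at h2
      rw [← h2]
      refine Finset.sum_congr rfl fun i _ => ?_
      rw [Submodule.coe_smul, Algebra.smul_def, eq_ratCast]
    have h3 : ∀ j, c j • (g j).1 = ∑ i, (b i : K) • (((b.repr (c' j) i : ℚ) : K) • (g j).1) := by
      intro j
      conv_lhs => rw [h1 j]
      rw [Finset.sum_smul]
      refine Finset.sum_congr rfl fun i _ => ?_
      rw [smul_smul, mul_comm]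
    rw [Finset.sum_congr rfl fun j _ => h3 j, Finset.sum_comm]
    refine Finset.sum_congr rfl fun i _ => ?_
    rw [Finset.smul_sum]

theorem ext_comp [Finite κ] (comp : W →+ V) (hc : Submodule.span K (Set.range comp) = ⊤)
    (φ ψ : MultilinearMap K (fun _ : κ => V) K)
    (h : ∀ v : κ → W, φ (fun k => comp (v k)) = ψ (fun k => comp (v k))) : φ = ψ := by
  let b := Module.Basis.ofSpan hc.ge
  refine Basis.ext_multilinear (fun _ => b) fun I => ?_
  have h1 : ∀ k, ∃ w, comp w = b (I k) := fun k =>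
    Module.Basis.ofSpan_subset hc.ge ⟨I k, rfl⟩
  choose w hw using h1
  have h2 := h w
  simp only [hw] at h2
  exact h2

/-- The Tate classes over a finite extension are spanned by the fixed Hodge classes. -/
theorem main {Γ : Type} [Group Γ] (per : W →+ A) (comp : W →+ V)
    (hc : Submodule.span K (Set.range comp) = ⊤) (ρ : Representation K Γ V) (χ : Γ →* K)
    (hMT : MumfordTateStrong per comp ρ χ)
    (act : ∀ m, Γ → MultilinearMap ℚ (fun _ : Fin m × Fin 2 => W) ℚ →
      MultilinearMap ℚ (fun _ : Fin m × Fin 2 => W) ℚ)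
    (hact : ∀ m g ψ, IsHodgeTensor per ψ → ∀ φ : MultilinearMap K (fun _ : Fin m × Fin 2 => V) K,
      Compares comp φ ψ → ∀ v : Fin m × Fin 2 → W,
        φ (fun l => ρ g (comp (v l))) = χ g ^ m * ((act m g ψ v : ℚ) : K))
    (Γ' : Subgroup Γ) (hΓ' : Γ'.FiniteIndex) (m : ℕ)
    (φ : MultilinearMap K (fun _ : Fin m × Fin 2 => V) K) :
    (∀ g ∈ Γ', ∀ v : Fin m × Fin 2 → V, φ (fun l => ρ g (v l)) = χ g ^ m * φ v) ↔
      φ ∈ Submodule.span K {φ' : MultilinearMap K (fun _ : Fin m × Fin 2 => V) K |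
        ∃ ψ : MultilinearMap ℚ (fun _ : Fin m × Fin 2 => W) ℚ, IsHodgeTensor per ψ ∧
          ψ ∈ Submodule.span ℚ {ψ' | IsProductOfHodgeBilinear per ψ'} ∧
          (∀ g ∈ Γ', act m g ψ = ψ) ∧ Compares comp φ' ψ} := by
  have hχ : ∀ g, χ g ≠ 0 := by
    intro g h0
    have h1 : χ g * χ g⁻¹ = 1 := by rw [← map_mul, mul_inv_cancel, map_one]
    rw [h0, zero_mul] at h1
    exact zero_ne_one h1
  constructor
  · intro hφ
    have h1 := hMT m φ ⟨Γ', hΓ', hφ⟩
    obtain ⟨M, d, φ', ψ', hd, hP, hcmp, rfl⟩ := indep comp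
      (fun ψ => IsHodgeTensor per ψ ∧ ψ ∈ Submodule.span ℚ {ψ' | IsProductOfHodgeBilinear per ψ'})
      (fun N r f hf => ⟨hodge_sum per _ r f fun j => (hf j).1,
        Submodule.sum_mem _ fun j _ => Submodule.smul_mem _ _ (hf j).2⟩) φ
      (by
        refine Submodule.span_mono ?_ h1
        rintro x ⟨ψ, h2, h3, h4⟩
        exact ⟨ψ, ⟨h2, Submodule.subset_span h3⟩, h4⟩)
    have hfix : ∀ g ∈ Γ', ∀ i, act m g (ψ' i) = ψ' i := by
      intro g hg
      have h2 : ∀ v : Fin m × Fin 2 → W, ∑ i, ((act m g (ψ' i) v - ψ' i v : ℚ)) • d i = 0 := by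
        intro v
        have h3 := hφ g hg fun k => comp (v k)
        rw [_root_.sum_apply, _root_.sum_apply, Finset.mul_sum] at h3
        have h4 : ∑ i, χ g ^ m * (d i * ((act m g (ψ' i) v : ℚ) : K)) =
            ∑ i, χ g ^ m * (d i * ((ψ' i v : ℚ) : K)) := by
          refine Eq.trans ?_ (h3.trans ?_)
          · refine Finset.sum_congr rfl fun i _ => ?_
            rw [_root_.smul_apply, hact m g (ψ' i) (hP i).1 (φ' i) (hcmp i) v, smul_eq_mul]
            ring
          · refine Finset.sum_congr rfl fun i _ => ?_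
            rw [_root_.smul_apply, hcmp i v, smul_eq_mul]
        rw [← Finset.mul_sum, ← Finset.mul_sum] at h4
        have h5 := mul_left_cancel₀ (pow_ne_zero m (hχ g)) h4
        rw [← sub_eq_zero, ← Finset.sum_sub_distrib] at h5
        rw [← h5]
        refine Finset.sum_congr rfl fun i _ => ?_
        rw [Algebra.smul_def, eq_ratCast, Rat.cast_sub]
        ring
      intro i
      ext v
      have h6 := Fintype.linearIndependent_iff.1 hd _ (h2 v) i
      exact sub_eq_zero.1 h6
    exact Submodule.sum_mem _ fun i _ => Submodule.smul_mem _ _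
      (Submodule.subset_span ⟨ψ' i, (hP i).1, (hP i).2, fun g hg => hfix g hg i, hcmp i⟩)
  · intro hφ g hg
    refine Submodule.span_induction (p := fun φ _ => ∀ v : Fin m × Fin 2 → V,
      φ (fun l => ρ g (v l)) = χ g ^ m * φ v) ?_ ?_ ?_ ?_ hφ
    · rintro φ' ⟨ψ, h1, -, h2, h3⟩ v
      have h4 : φ'.compLinearMap (fun _ => ρ g) = (χ g ^ m) • φ' := by
        refine ext_comp comp hc _ _ fun w => ?_
        rw [MultilinearMap.compLinearMap_apply, hact m g ψ h1 φ' h3 w, h2 g hg,
          _root_.smul_apply, h3 w, smul_eq_mul]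
      have h5 := congrArg (fun f : MultilinearMap K (fun _ : Fin m × Fin 2 => V) K => f v) h4
      exact h5
    · intro v
      rw [_root_.zero_apply, _root_.zero_apply, mul_zero]
    · intro a b _ _ ha hb v
      rw [_root_.add_apply, _root_.add_apply, ha v, hb v, mul_add]
    · intro c a _ ha v
      rw [_root_.smul_apply, _root_.smul_apply, ha v, smul_eq_mul, smul_eq_mul]
      ring

end Pool.Agent.Y130.AST
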